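import Pool.Agent.Lib.MP_688fd0_co.TE.H39.Abs
import Pool.Agent.Lib.MP_688fd0_co.TF.Iface4

/-!
# Theorem F, module ABSF: configurations with distinct vertices are gadgets
-/

set_option linter.unusedSectionVars false

namespace Pool.Agent.Lib.MP_688fd0_co.TF.H37

open Pool.Agent.Lib.MP_688fd0_co.TE
open Pool.Agent.Lib.MP_688fd0_co.TE.H39
open Pool.Agent.Lib.MP_688fd0_co.TF

universe u

theorem Lt_invF {G : Type u} [Group G] [Fintype G] [DecidableEq G] (c : TF.Ctx G) (τ : Bool) :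
    ∀ s ∈ Lt c.B c.C τ, s⁻¹ ∈ Lt c.B c.C τ := by
  intro s hs
  unfold Lt at hs ⊢
  split_ifs at hs ⊢
  · rcases Finset.mem_union.1 hs with h | h
    · exact Finset.mem_union_left _ (c.hB.inv s h)
    · exact Finset.mem_union_right _ (c.hC.inv s h)
  · exact c.hB.inv s hs

theorem k_formF {G : Type u} [Group G] [Fintype G] [DecidableEq G] (c : TF.Ctx G) :
    ∃ t, c.k = 2 * t + 1 := c.hodd

/-- Module ABSF. -/
theorem absf (hA : TF.ADJF_S.{u}) : TF.ABSF_S.{u} := by
  intro G _ _ _ c τ e γ he hΓ hinj hout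
  obtain ⟨t, ht⟩ := k_formF c
  have hL := Lt_invF c τ
  have hlen : c.len true = 6 * c.k + 3 := by simp [Ctx.len]
  have hlen' : c.len false = 6 * c.k := by simp [Ctx.len]
  have hΓ1 : c.WL τ true e.2 e.1 γ.1 ≠ 0 := left_ne_zero_of_mul (left_ne_zero_of_mul hΓ)
  have hΓ2 : ∀ i : Fin (3 * c.k - 1),
      c.WL τ true (c.cy γ (2 * i + 2)) (c.cy γ (2 * i + 5)) (γ.2.1 i) ≠ 0 := fun i =>
    Finset.prod_ne_zero_iff.1 (right_ne_zero_of_mul (left_ne_zero_of_mul hΓ)) i (Finset.mem_univ i)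
  have hΓ3 : c.WL τ false (c.cy γ (6 * c.k)) (c.cy γ (6 * c.k + 2)) γ.2.2 ≠ 0 :=
    right_ne_zero_of_mul hΓ
  -- the functions
  set W : ℕ → G := c.cy γ with hW
  let z : ℕ → ℕ → G := fun i p => if h : i < 3 * c.k - 1 ∧ p < c.len true + 1 then
    γ.2.1 ⟨i, h.1⟩ ⟨p, h.2⟩ else 1
  let zl : ℕ → G := fun p => if h : p < c.len false + 1 then γ.2.2 ⟨p, h⟩ else 1
  have hWv : ∀ i (h : i < c.len true + 1), W i = γ.1 ⟨i, h⟩ := fun i h => dif_pos h
  have hzv : ∀ i p (h : i < 3 * c.k - 1) (h' : p < c.len true + 1),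
      z i p = γ.2.1 ⟨i, h⟩ ⟨p, h'⟩ := fun i p h h' => dif_pos ⟨h, h'⟩
  have hzlv : ∀ p (h : p < c.len false + 1), zl p = γ.2.2 ⟨p, h⟩ := fun p h => dif_pos h
  obtain ⟨a1, a2, a3⟩ := hA G c τ true _ _ _ hΓ1
  obtain ⟨b1, b2, b3⟩ := hA G c τ false _ _ _ hΓ3
  have hW0 : W 0 = e.2 := by rw [hWv 0 (by omega)]; exact a1
  have hW1 : W (6 * c.k + 3) = e.1 := by
    rw [hWv (6 * c.k + 3) (by omega), ← a2]
    congr 1
  have D : Dat (Lt c.B c.C τ) W z (6 * c.k + 2) (3 * c.k - 1) (6 * c.k + 3) := by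
    refine ⟨hL, ?_, ?_, ?_, ?_⟩
    · intro i hi
      rw [hWv i (by omega), hWv (i + 1) (by omega)]
      exact a3 ⟨i, by omega⟩
    · intro i hi
      rw [hzv i 0 hi (by omega)]
      exact (hA G c τ true _ _ _ (hΓ2 ⟨i, hi⟩)).1
    · intro i hi
      rw [hzv i _ hi (by omega)]
      refine Eq.trans ?_ (hA G c τ true _ _ _ (hΓ2 ⟨i, hi⟩)).2.1
      congr 1
    · intro i hi p hp
      rw [hzv i p hi (by omega), hzv i (p + 1) hi (by omega)]
      exact (hA G c τ true _ _ _ (hΓ2 ⟨i, hi⟩)).2.2 ⟨p, by omega⟩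
  have hl0 : zl 0 = W (6 * c.k) := by rw [hzlv 0 (by omega)]; exact b1
  have hl1 : zl (6 * c.k - 1 + 1) = W (6 * c.k + 2) := by
    have e0 : 6 * c.k - 1 + 1 = c.len false := by omega
    rw [e0, hzlv _ (by omega), ← b2]
    rfl
  have hls : ∀ p < 6 * c.k - 1 + 1, (zl p)⁻¹ * zl (p + 1) ∈ Lt c.B c.C τ := by
    intro p hp
    rw [hzlv p (by omega), hzlv (p + 1) (by omega)]
    exact b3 ⟨p, by omega⟩
  have P1 := path_fw (L := Lt c.B c.C τ) zl (6 * c.k - 1) hls
  have P2 := path_bw (L := Lt c.B c.C τ) zl (6 * c.k - 1) hls hL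
  rw [hl0, hl1] at P1 P2
  -- the paths
  have PF := D.pathF (3 * t + 1) (by omega) (by omega)
  have PR := D.pathR (3 * t + 1) (by omega) (by omega)
  have PQ := D.pathQ (3 * c.k - 1) le_rfl (by omega)
  have e1 : 4 * (3 * t + 1) + 2 = 6 * c.k := by omega
  have e2 : 4 * (3 * t + 1) + 4 = 6 * c.k + 2 := by omega
  have e3 : 2 * (3 * c.k - 1) + 2 = 6 * c.k := by omega
  rw [e1] at PF
  rw [e2] at PR
  rw [e3] at PQ
  have Pn := (PF.append P1).append PR
  have s1 : Path (Lt c.B c.C τ) (W 1) e.2 [e.2] := by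
    rw [← hW0]; exact Path.single (D.back (i := 0) (by omega))
  have s2 : Path (Lt c.B c.C τ) e.2 e.1 [e.1] := by
    refine Path.single ?_
    have := hL _ he
    rwa [mul_inv_rev, inv_inv] at this
  have s3 : Path (Lt c.B c.C τ) e.1 (W (6 * c.k + 2)) [W (6 * c.k + 2)] := by
    rw [← hW1]; exact Path.single (D.back (i := 6 * c.k + 2) (by omega))
  have Pa := (((s1.append s2).append s3).append P2).append PQ
  -- vertices
  have hvl : ∀ i : Fin (6 * c.k + 2), c.vx γ (Sum.inl i) = W (i + 1) := by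
    intro i
    rw [hWv (i + 1) (by have := i.2; omega)]
    rfl
  have hvr : ∀ (i : Fin (3 * c.k - 1)) (p : Fin (6 * c.k + 2)),
      c.vx γ (Sum.inr (Sum.inl (i, p))) = z i (p + 1) := by
    intro i p
    rw [hzv i (p + 1) i.2 (by have := p.2; omega)]
    rfl
  have hvs : ∀ p : Fin (6 * c.k - 1), c.vx γ (Sum.inr (Sum.inr p)) = zl (p + 1) := by
    intro p
    rw [hzlv (p + 1) (by have := p.2; omega)]
    rfl
  have hcard : (Finset.univ.image (c.vx γ)).card =
      6 * c.k + 2 + ((3 * c.k - 1) * (6 * c.k + 2) + (6 * c.k - 1)) := by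
    rw [Finset.card_image_of_injective _ hinj, Finset.card_univ]
    simp [Fintype.card_sum, Fintype.card_prod, Fintype.card_fin]
  have k1 : 3 * c.k - 1 = 6 * t + 2 := by omega
  have k2 : 6 * c.k - 1 = 12 * t + 5 := by omega
  have k3 : 6 * c.k + 2 = 12 * t + 8 := by omega
  set ln := W 1 :: (Fl W z (6 * c.k + 2) (3 * t + 1) ++ (fw zl (6 * c.k - 1) ++ [W (6 * c.k + 2)]) ++
    Rl W z (6 * c.k + 2) (3 * t + 1)) with hln
  set la := W 1 :: ([e.2] ++ [e.1] ++ [W (6 * c.k + 2)] ++ (bw zl (6 * c.k - 1) ++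
    [W (6 * c.k)]) ++ Ql W z (6 * c.k + 2) (3 * c.k - 1)) with hla
  have N1 : ∀ v ∈ Finset.univ.image (c.vx γ), v ∈ ln := by
    intro v hv
    obtain ⟨p, -, rfl⟩ := Finset.mem_image.1 hv
    have hF : ∀ v, v ∈ W 1 :: Fl W z (6 * c.k + 2) (3 * t + 1) → v ∈ ln := by
      intro v hv
      rcases List.mem_cons.1 hv with rfl | hv
      · exact List.mem_cons_self
      · exact List.mem_cons_of_mem _ (List.mem_append_left _ (List.mem_append_left _ hv))
    have hR : ∀ v, v ∈ W (4 * (3 * t + 1) + 4) :: Rl W z (6 * c.k + 2) (3 * t + 1) → v ∈ ln := by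
      intro v hv
      rw [e2] at hv
      rcases List.mem_cons.1 hv with rfl | hv
      · exact List.mem_cons_of_mem _ (List.mem_append_left _ (List.mem_append_right _
          (List.mem_append_right _ (List.mem_singleton_self _))))
      · exact List.mem_cons_of_mem _ (List.mem_append_right _ hv)
    obtain ⟨m1, m2⟩ := mem_Fl W z (6 * c.k + 2) (3 * t + 1)
    obtain ⟨m3, m4⟩ := mem_Rl W z (6 * c.k + 2) (3 * t + 1)
    rcases p with i | ⟨i, p⟩ | p
    · rw [hvl]
      have hi := i.2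
      obtain ⟨a, ha⟩ : ∃ a, (i : ℕ) + 1 = 4 * a + 1 ∨ (i : ℕ) + 1 = 4 * a + 2 ∨
          (i : ℕ) + 1 = 4 * a + 3 ∨ (i : ℕ) + 1 = 4 * a + 4 := ⟨i / 4, by omega⟩
      rcases ha with h | h | h | h <;> rw [h]
      · exact hF _ (m1 a (by omega)).1
      · exact hF _ (m1 a (by omega)).2
      · exact hR _ (m3 a (by omega)).1
      · exact hR _ (m3 a (by omega)).2
    · rw [hvr]
      have hi := i.2
      have hp := p.2
      rcases Nat.even_or_odd' (i : ℕ) with ⟨a, ha | ha⟩ <;> rw [ha]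
      · exact hF _ (m2 a (by omega) _ (by omega) (by omega))
      · exact hR _ (m4 a (by omega) _ (by omega) (by omega))
    · rw [hvs]
      have hp := p.2
      have := mem_fw zl (6 * c.k - 1) (p + 1) (by omega) (by omega)
      exact List.mem_cons_of_mem _ (List.mem_append_left _ (List.mem_append_right _
        (List.mem_append_left _ this)))
  have N2 : ∀ v ∈ insert e.1 (insert e.2 (Finset.univ.image (c.vx γ))), v ∈ la := by
    intro v hv
    rcases Finset.mem_insert.1 hv with rfl | hv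
    · simp [hla]
    rcases Finset.mem_insert.1 hv with rfl | hv
    · simp [hla]
    obtain ⟨p, -, rfl⟩ := Finset.mem_image.1 hv
    obtain ⟨m1, m2⟩ := mem_Ql W z (6 * c.k + 2) (3 * c.k - 1)
    have hQ : ∀ v, v ∈ W (2 * (3 * c.k - 1) + 2) :: Ql W z (6 * c.k + 2) (3 * c.k - 1) → v ∈ la := by
      intro v hv
      rw [e3] at hv
      rcases List.mem_cons.1 hv with rfl | hv
      · exact List.mem_cons_of_mem _ (List.mem_append_left _ (List.mem_append_right _
          (List.mem_append_right _ (List.mem_singleton_self _))))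
      · exact List.mem_cons_of_mem _ (List.mem_append_right _ hv)
    rcases p with i | ⟨i, p⟩ | p
    · rw [hvl]
      have hi := i.2
      rcases Nat.eq_zero_or_pos (i : ℕ) with h0 | h0
      · rw [h0]; simp [hla]
      rcases Nat.lt_or_ge ((i : ℕ) + 1) (6 * c.k + 2) with h1 | h1
      · obtain ⟨a, ha⟩ : ∃ a, (i : ℕ) + 1 = 2 * a + 2 ∨ (i : ℕ) + 1 = 2 * a + 3 :=
          ⟨((i : ℕ) - 1) / 2, by omega⟩
        rcases ha with h | h <;> rw [h]
        · exact hQ _ (m1 a (by omega)).1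
        · exact hQ _ (m1 a (by omega)).2
      · have h2 : (i : ℕ) + 1 = 6 * c.k + 2 := by omega
        rw [h2]; simp [hla]
    · rw [hvr]
      have hi := i.2
      have hp := p.2
      exact hQ _ (m2 i (by omega) _ (by omega) (by omega))
    · rw [hvs]
      have hp := p.2
      have := mem_bw zl (6 * c.k - 1) (p + 1) (by omega) (by omega)
      exact List.mem_cons_of_mem _ (List.mem_append_left _ (List.mem_append_right _
        (List.mem_append_left _ this)))
  have hne12 : e.1 ≠ e.2 := by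
    intro h
    rw [h, inv_mul_cancel] at he
    unfold Lt at he
    split_ifs at he
    · rcases Finset.mem_union.1 he with h | h
      · exact c.hB1 h
      · exact c.hC1 h
    · exact c.hB1 he
  have hn2 : e.2 ∉ Finset.univ.image (c.vx γ) := by
    intro h
    obtain ⟨p, -, hp⟩ := Finset.mem_image.1 h
    exact (hout p).2 hp
  have hn1 : e.1 ∉ insert e.2 (Finset.univ.image (c.vx γ)) := by
    intro h
    rcases Finset.mem_insert.1 h with h | h
    · exact hne12 h
    · obtain ⟨p, -, hp⟩ := Finset.mem_image.1 h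
      exact (hout p).1 hp
  have L1 : ln.length = (Finset.univ.image (c.vx γ)).card := by
    rw [hcard, hln]
    simp only [List.length_cons, List.length_append, length_Fl, length_Rl, length_fw,
      List.length_nil]
    rw [k1, k2, k3]
    ring
  have L2 : la.length = (insert e.1 (insert e.2 (Finset.univ.image (c.vx γ)))).card := by
    rw [Finset.card_insert_of_notMem hn1, Finset.card_insert_of_notMem hn2, hcard, hla]
    simp only [List.length_cons, List.length_append, length_Ql, length_bw, List.length_nil]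
    rw [k1, k2, k3]
    ring
  obtain ⟨nd1, me1⟩ := nodup_of ln _ N1 L1
  obtain ⟨nd2, me2⟩ := nodup_of la _ N2 L2
  have hw1 : W 1 = c.vx γ (Sum.inl ⟨0, by omega⟩) := (hvl ⟨0, by omega⟩).symm
  have hw3 : W 3 = c.vx γ (Sum.inl ⟨2, by omega⟩) := (hvl ⟨2, by omega⟩).symm
  refine ⟨la, ln, ?_, ?_, ?_, ?_, nd2, me2, Pa.1, rfl, Pa.2, nd1, ?_, Pn.1, rfl, Pn.2⟩
  · rw [hw1, hw3]
    intro h
    have := hinj h
    simp at this
  · exact Finset.mem_insert_self _ _
  · exact Finset.mem_insert_of_mem (Finset.mem_insert_self _ _)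
  · rw [hw1, hw3]
    exact ⟨(hout _).1, (hout _).2, (hout _).1, (hout _).2⟩
  · intro v
    rw [me1]
    constructor
    · intro hv
      refine ⟨Finset.mem_insert_of_mem (Finset.mem_insert_of_mem hv), ?_, ?_⟩
      · rintro rfl; exact hn1 (Finset.mem_insert_of_mem hv)
      · rintro rfl; exact hn2 hv
    · rintro ⟨hv, h1, h2⟩
      rcases Finset.mem_insert.1 hv with h | hv
      · exact absurd h h1
      rcases Finset.mem_insert.1 hv with h | hv
      · exact absurd h h2
      exact hv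

end Pool.Agent.Lib.MP_688fd0_co.TF.H37
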